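import Pool.Agent.helper37.ND.Spec
import Pool.Agent.helper59.FI.Base

set_option autoImplicit false

namespace Pool.Agent.ND

open Pool.Agent.helper58.DC Pool.Agent.DI Pool.Agent.GR Pool.Agent.OB Pool.Agent.DR Pool.Agent.FI Pool.Agent.FI3 Pool.Agent.FI4 Pool.Agent.FI4I Pool.Agent.LE Pool.Agent.L5 Pool.Agent.NAB

theorem GUC_cj {G : Type} [Group G] {Z : Subgroup G} {k : G} (hk : k ∈ cz Z) : cjS k Z = Z :=
  cj_nz.2 (cz_le_nz Z hk)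

theorem GUC (hEXB : EXB_stmt) (hTRN : TRN_stmt) (hNUH : NUH_stmt) (hNUB : NUB_stmt) (hZNU : ZNU_stmt) (hZGP : ZGP_stmt) : GUC_stmt := by
  intro p e m t M h G _ _ χ Z z x hZD L hL θ hθ
  obtain ⟨hθI, hθS, z1, x1, hU1, hZ1⟩ := hθ
  have hem := hZD.em
  obtain ⟨-, -, q3, -, q5, -⟩ := hZGP p e m h.pr (by omega) G z hZD.uc.pe hZD.uc.od
  rw [hZD.zz] at q3 q5
  have hZp : IsPGroup p Z := q3.2
  have hZc : Z ≤ cz Z := q5.2.2.2.2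
  obtain ⟨ψ, hψ, hS⟩ := hEXB p M h G L Z hZp (hZc.trans hL) θ (by rw [inf_eq_right.2 hL]; exact hθI)
  have hST : SB M (⊤ : Subgroup G) ψ χ :=
    (hTRN G M L ⊤ le_top θ ψ χ (fun y hy => IrrOn_zero hθI (fun hc => hy (hL hc))) (fun y hy => IrrOn_zero hψ hy) hS).2.2 hθS
  obtain ⟨g, -, hg⟩ := hNUH p e m M h G ⊤ L le_top ψ hψ χ z x hST hZD.uc
  obtain ⟨l, hl, hl'⟩ := hNUH p e m M h G L (cz Z) hL θ hθI ψ _ _ hS hg
  obtain ⟨k, hk, hk'⟩ := (hZNU p e m M h hem G (cz Z) θ hθI z1 x1 hU1).1 _ _ hl'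
  rw [hZ1, GUC_cj hk] at hk'
  exact ⟨ψ, ⟨hψ, hST, _, _, (hNUB p e m M h G L ψ _ _ hg).2.2 l hl, hk'⟩, hS⟩

end Pool.Agent.ND
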